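import Mathlib

/-!
# The dual of the partition lattice on `n + 1` points is a lattice of partitions of `60 ^ n` points

For a group `G` and a partition `π` of the index set `I = {0, ..., n}` let `H π` be the subgroup
of `G ^ (n + 1)` of the tuples which are constant on the blocks of `π`. Always
`H (π ∨ σ) = H π ∩ H σ`. If `G` is perfect then `H (π ∧ σ)` is generated by `H π` and `H σ`: for a
block `B` of `π` and a block `C` of `σ` the commutator of a tuple supported on `B` and of a tuple
supported on `C` is supported on `B ∩ C`. All the groups `H π` contain the diagonal, so the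
partitions of `G ^ (n + 1) / diagonal` into the cosets of the groups `H π` give an embedding of the
dual of the partition lattice on `n + 1` points into the partition lattice of a set with
`|G| ^ n` elements. The alternating group `A_5` is perfect of order `60`.
-/

set_option autoImplicit false

namespace Pool.Agent.Results.MP_437e5a_co.DualPartitionLattice

/-- The Whitman number of a lattice `L`: the least `n` such that there is an injective map from `L`
to the lattice of partitions (equivalence relations) of a set with `n` elements that preserves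
binary joins and meets. -/
noncomputable def whitmanNumber (L : Type) [Lattice L] : ℕ :=
  sInf {n | ∃ f : LatticeHom L (Setoid (Fin n)), Function.Injective f}

open scoped commutatorElement

variable {G : Type} [Group G] {n : ℕ}

/-- Tuples constant on the blocks of `π`. -/
def H (G : Type) [Group G] {I : Type} (π : Setoid I) : Subgroup (I → G) where
  carrier := {x | ∀ i j, π i j → x i = x j}
  one_mem' := fun _ _ _ => rfl
  mul_mem' := by
    intro x y hx hy i j hij
    show x i * y i = x j * y j
    rw [hx i j hij, hy i j hij]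
  inv_mem' := by
    intro x hx i j hij
    show (x i)⁻¹ = (x j)⁻¹
    rw [hx i j hij]

variable {I : Type}

theorem mem_H {π : Setoid I} {x : I → G} : x ∈ H G π ↔ ∀ i j, π i j → x i = x j := Iff.rfl

open Classical in
/-- The tuple equal to `g` on the block of `i` and to `1` elsewhere. -/
noncomputable def elt (π : Setoid I) (i : I) (g : G) : I → G := fun j => if π i j then g else 1

theorem elt_mem (π : Setoid I) (i : I) (g : G) : elt π i g ∈ H G π := by
  intro j k hjk
  unfold elt
  by_cases h : π i j
  · rw [if_pos h, if_pos (π.trans h hjk)]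
  · rw [if_neg h, if_neg (fun h' => h (π.trans h' (π.symm hjk)))]

theorem elt_mul (π : Setoid I) (i : I) (g h : G) : elt π i (g * h) = elt π i g * elt π i h := by
  funext j
  rw [Pi.mul_apply]
  unfold elt
  split_ifs <;> simp

theorem elt_comm (π σ : Setoid I) (i : I) (g h : G) :
    ⁅elt π i g, elt σ i h⁆ = elt (π ⊓ σ) i ⁅g, h⁆ := by
  funext j
  simp only [commutatorElement_def, Pi.mul_apply, Pi.inv_apply]
  unfold elt
  have h0 : (π ⊓ σ) i j ↔ π i j ∧ σ i j := Iff.rfl
  by_cases h1 : π i j <;> by_cases h2 : σ i j <;> simp [h0, h1, h2]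

/-- The key fact: over a perfect group, a subgroup which contains `H π` and `H σ` contains
`H (π ⊓ σ)`. -/
theorem H_inf_le [Finite I] (hG : commutator G = ⊤) (π σ : Setoid I) (K : Subgroup (I → G))
    (hπ : H G π ≤ K) (hσ : H G σ ≤ K) : H G (π ⊓ σ) ≤ K := by
  classical
  have := Fintype.ofFinite I
  -- all the elements `elt (π ⊓ σ) i g` are in `K`
  have h1 : ∀ (i : I) (g : G), elt (π ⊓ σ) i g ∈ K := by
    intro i
    let φ : G →* (I → G) :=
      { toFun := elt (π ⊓ σ) i
        map_one' := by
          funext j
          unfold elt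
          split_ifs <;> rfl
        map_mul' := elt_mul _ i }
    have h2 : commutator G ≤ K.comap φ := by
      rw [commutator_def, Subgroup.commutator_le]
      intro g _ h _
      rw [Subgroup.mem_comap]
      show elt (π ⊓ σ) i ⁅g, h⁆ ∈ K
      rw [← elt_comm]
      have e1 := hπ (elt_mem π i g)
      have e2 := hσ (elt_mem σ i h)
      rw [commutatorElement_def]
      exact K.mul_mem (K.mul_mem (K.mul_mem e1 e2) (K.inv_mem e1)) (K.inv_mem e2)
    intro g
    rw [hG] at h2
    exact h2 (Subgroup.mem_top g)
  -- induction on the size of the support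
  have h2 : ∀ (m : ℕ) (x : I → G), x ∈ H G (π ⊓ σ) →
      (Finset.univ.filter fun j => x j ≠ 1).card ≤ m → x ∈ K := by
    intro m
    induction m with
    | zero =>
      intro x _ hx
      have h3 : x = 1 := by
        funext j
        by_contra hj
        have h4 : j ∈ Finset.univ.filter fun j => x j ≠ 1 := by simpa using hj
        rw [Finset.card_eq_zero.1 (Nat.le_zero.1 hx)] at h4
        exact absurd h4 (Finset.notMem_empty j)
      rw [h3]
      exact K.one_mem
    | succ m ih =>
      intro x hx hm
      by_cases h3 : ∃ i, x i ≠ 1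
      · obtain ⟨i, hi⟩ := h3
        set y := (elt (π ⊓ σ) i (x i))⁻¹ * x with hy
        have hyH : y ∈ H G (π ⊓ σ) :=
          (H G (π ⊓ σ)).mul_mem ((H G (π ⊓ σ)).inv_mem (elt_mem _ _ _)) hx
        have hyval : ∀ j, y j = if (π ⊓ σ) i j then 1 else x j := by
          intro j
          rw [hy, Pi.mul_apply, Pi.inv_apply]
          unfold elt
          split_ifs with h4
          · rw [hx i j h4, inv_mul_cancel]
          · rw [inv_one, one_mul]
        have hlt : (Finset.univ.filter fun j => y j ≠ 1) ⊂
            (Finset.univ.filter fun j => x j ≠ 1) := by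
          rw [Finset.ssubset_iff_of_subset]
          · refine ⟨i, by simpa using hi, ?_⟩
            simp only [Finset.mem_filter, Finset.mem_univ, true_and, not_not]
            rw [hyval, if_pos ((π ⊓ σ).refl i)]
          · intro j hj
            simp only [Finset.mem_filter, Finset.mem_univ, true_and] at hj ⊢
            rw [hyval] at hj
            intro h4
            apply hj
            rw [h4, ite_self]
        have h5 := Finset.card_lt_card hlt
        have h6 := ih y hyH (by omega)
        have h7 : x = elt (π ⊓ σ) i (x i) * y := by rw [hy, mul_inv_cancel_left]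
        rw [h7]
        exact K.mul_mem (h1 i _) h6
      · push Not at h3
        have h4 : x = 1 := funext h3
        rw [h4]
        exact K.one_mem
  exact fun x hx => h2 _ x hx le_rfl

/-- A point `x` of `G ^ n`, as the tuple `(1, x)` in `G ^ (n + 1)`. -/
def ext (x : Fin n → G) : Fin (n + 1) → G := Fin.cons 1 x

/-- The normal form of the coset of `x` by the diagonal. -/
def nor (x : Fin (n + 1) → G) : Fin n → G := fun i => x i.succ * (x 0)⁻¹

theorem nor_ext (x : Fin n → G) : nor (ext x) = x := by
  funext i
  simp [nor, ext]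

theorem ext_nor (x : Fin (n + 1) → G) (i : Fin (n + 1)) : ext (nor x) i = x i * (x 0)⁻¹ := by
  refine Fin.cases ?_ (fun j => ?_) i
  · simp [ext]
  · simp [ext, nor]

/-- The partition of `G ^ n = G ^ (n + 1) / diagonal` given by the cosets of `H π`. -/
def R (G : Type) [Group G] (π : Setoid (Fin (n + 1))) : Setoid (Fin n → G) where
  r x y := (ext x)⁻¹ * ext y ∈ H G π
  iseqv :=
    { refl := fun x => by rw [inv_mul_cancel]; exact (H G π).one_mem
      symm := fun {x y} h => by
        have := (H G π).inv_mem h
        rwa [mul_inv_rev, inv_inv] at this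
      trans := fun {x y z} h1 h2 => by
        have := (H G π).mul_mem h1 h2
        rwa [mul_assoc, mul_inv_cancel_left] at this }

theorem R_iff {π : Setoid (Fin (n + 1))} {x y : Fin n → G} :
    R G π x y ↔ (ext x)⁻¹ * ext y ∈ H G π := Iff.rfl

theorem R_nor {π : Setoid (Fin (n + 1))} {x y : Fin (n + 1) → G} (h : x⁻¹ * y ∈ H G π) :
    R G π (nor x) (nor y) := by
  rw [R_iff]
  intro i j hij
  have h1 := h i j hij
  simp only [Pi.mul_apply, Pi.inv_apply] at h1 ⊢
  rw [ext_nor, ext_nor, ext_nor, ext_nor, mul_inv_rev, mul_inv_rev, inv_inv]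
  calc x 0 * (x i)⁻¹ * (y i * (y 0)⁻¹) = x 0 * ((x i)⁻¹ * y i) * (y 0)⁻¹ := by group
    _ = x 0 * ((x j)⁻¹ * y j) * (y 0)⁻¹ := by rw [h1]
    _ = x 0 * (x j)⁻¹ * (y j * (y 0)⁻¹) := by group

theorem R_sup (π σ : Setoid (Fin (n + 1))) : R G (π ⊔ σ) = R G π ⊓ R G σ := by
  ext x y
  rw [Setoid.inf_def, R_iff]
  show _ ↔ R G π x y ∧ R G σ x y
  rw [R_iff, R_iff]
  have h1 : ∀ (τ : Setoid (Fin (n + 1))) (z : Fin (n + 1) → G),
      z ∈ H G τ ↔ τ ≤ Setoid.ker z := fun τ z =>
    ⟨fun h i j hij => h i j hij, fun h i j hij => h hij⟩
  rw [h1, h1, h1, sup_le_iff]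

theorem R_inf (hG : commutator G = ⊤) (π σ : Setoid (Fin (n + 1))) :
    R G (π ⊓ σ) = R G π ⊔ R G σ := by
  apply le_antisymm
  · set s := R G π ⊔ R G σ with hs
    -- the elements which move every point inside its class
    let K : Subgroup (Fin (n + 1) → G) :=
      { carrier := {h | ∀ x : Fin (n + 1) → G, s (nor x) (nor (x * h))}
        one_mem' := fun x => by rw [mul_one]
        mul_mem' := by
          intro g h hg hh x
          have := s.trans (hg x) (hh (x * g))
          rwa [mul_assoc] at this
        inv_mem' := by
          intro g hg x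
          have := s.symm (hg (x * g⁻¹))
          rwa [inv_mul_cancel_right] at this }
    have hK : ∀ h, h ∈ K ↔ ∀ x : Fin (n + 1) → G, s (nor x) (nor (x * h)) := fun _ => Iff.rfl
    have h1 : H G (π ⊓ σ) ≤ K := by
      apply H_inf_le hG
      · intro h hh
        rw [hK]
        intro x
        have h2 : R G π ≤ s := le_sup_left
        exact h2 (R_nor (by rwa [inv_mul_cancel_left]))
      · intro h hh
        rw [hK]
        intro x
        have h2 : R G σ ≤ s := le_sup_right
        exact h2 (R_nor (by rwa [inv_mul_cancel_left]))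
    intro x y hxy
    have h2 := (hK _).1 (h1 hxy) (ext x)
    rwa [mul_inv_cancel_left, nor_ext, nor_ext] at h2
  · apply sup_le
    · intro x y h i j hij
      exact h i j hij.1
    · intro x y h i j hij
      exact h i j hij.2

theorem R_injective [Nontrivial G] :
    Function.Injective (fun π : Setoid (Fin (n + 1)) => R G π) := by
  classical
  have key : ∀ π σ : Setoid (Fin (n + 1)), R G π = R G σ → σ ≤ π := by
    intro π σ h i j hij
    by_contra hcon
    obtain ⟨g, hg⟩ := exists_ne (1 : G)
    have h1 : R G π (nor (1 : Fin (n + 1) → G)) (nor (elt π i g)) := by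
      apply R_nor
      rw [inv_one, one_mul]
      exact elt_mem _ _ _
    rw [h] at h1
    have h2 := h1 i j hij
    simp only [Pi.mul_apply, Pi.inv_apply, ext_nor, Pi.one_apply, inv_one, mul_one, one_mul] at h2
    have h3 := mul_right_cancel h2
    unfold elt at h3
    rw [if_pos (π.refl i), if_neg hcon] at h3
    exact hg h3
  intro π σ h
  exact le_antisymm (key σ π h.symm) (key π σ h)

/-- The embedding for a set `A` in bijection with `G ^ n`. -/
noncomputable def emb (hG : commutator G = ⊤) {m : ℕ} (e : Fin m ≃ (Fin n → G)) :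
    LatticeHom (Setoid (Fin (n + 1)))ᵒᵈ (Setoid (Fin m)) where
  toFun π := (R G (OrderDual.ofDual π)).comap e
  map_sup' := by
    intro a b
    have h := R_inf hG (OrderDual.ofDual a) (OrderDual.ofDual b)
    show (R G (OrderDual.ofDual a ⊓ OrderDual.ofDual b)).comap e = _
    rw [h]
    apply le_antisymm
    · -- push forward along `e`
      set t := (R G (OrderDual.ofDual a)).comap e ⊔ (R G (OrderDual.ofDual b)).comap e with ht
      have h1 : R G (OrderDual.ofDual a) ⊔ R G (OrderDual.ofDual b) ≤ t.comap e.symm := by
        apply sup_le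
        · intro x y hxy
          have h2 : (R G (OrderDual.ofDual a)).comap e ≤ t := le_sup_left
          apply h2
          show R G (OrderDual.ofDual a) (e (e.symm x)) (e (e.symm y))
          rwa [e.apply_symm_apply, e.apply_symm_apply]
        · intro x y hxy
          have h2 : (R G (OrderDual.ofDual b)).comap e ≤ t := le_sup_right
          apply h2
          show R G (OrderDual.ofDual b) (e (e.symm x)) (e (e.symm y))
          rwa [e.apply_symm_apply, e.apply_symm_apply]
      intro x y hxy
      have h2 : t (e.symm (e x)) (e.symm (e y)) := h1 hxy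
      rwa [e.symm_apply_apply, e.symm_apply_apply] at h2
    · apply sup_le
      · intro x y hxy
        have h2 : R G (OrderDual.ofDual a) ≤ R G (OrderDual.ofDual a) ⊔ R G (OrderDual.ofDual b) :=
          le_sup_left
        exact h2 hxy
      · intro x y hxy
        have h2 : R G (OrderDual.ofDual b) ≤ R G (OrderDual.ofDual a) ⊔ R G (OrderDual.ofDual b) :=
          le_sup_right
        exact h2 hxy
  map_inf' := by
    intro a b
    have h := R_sup (G := G) (OrderDual.ofDual a) (OrderDual.ofDual b)
    show (R G (OrderDual.ofDual a ⊔ OrderDual.ofDual b)).comap e = _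
    rw [h]
    rfl

theorem emb_injective [Nontrivial G] (hG : commutator G = ⊤) {m : ℕ} (e : Fin m ≃ (Fin n → G)) :
    Function.Injective (emb hG e) := by
  intro a b h
  have h1 : (R G (OrderDual.ofDual a)).comap e = (R G (OrderDual.ofDual b)).comap e := h
  have h2 : R G (OrderDual.ofDual a) = R G (OrderDual.ofDual b) := by
    ext x y
    have h3 : (R G (OrderDual.ofDual a)).comap e (e.symm x) (e.symm y) ↔
        (R G (OrderDual.ofDual b)).comap e (e.symm x) (e.symm y) := by rw [h1]
    have h4 : ∀ s : Setoid (Fin n → G), s.comap e (e.symm x) (e.symm y) ↔ s x y := by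
      intro s
      show s (e (e.symm x)) (e (e.symm y)) ↔ _
      rw [e.apply_symm_apply, e.apply_symm_apply]
    rwa [h4, h4] at h3
  exact OrderDual.ofDual.injective (R_injective h2)

theorem perfect_A5 : commutator (alternatingGroup (Fin 5)) = ⊤ := by
  rcases Subgroup.Normal.eq_bot_or_eq_top
    (inferInstance : (commutator (alternatingGroup (Fin 5))).Normal) with h | h
  · exfalso
    let a : alternatingGroup (Fin 5) := ⟨Equiv.swap 0 1 * Equiv.swap 1 2, by
      rw [Equiv.Perm.mem_alternatingGroup]; decide⟩
    let b : alternatingGroup (Fin 5) := ⟨Equiv.swap 2 3 * Equiv.swap 3 4, by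
      rw [Equiv.Perm.mem_alternatingGroup]; decide⟩
    have h1 : ⁅a, b⁆ ∈ commutator (alternatingGroup (Fin 5)) :=
      Subgroup.commutator_mem_commutator (Subgroup.mem_top _) (Subgroup.mem_top _)
    rw [h, Subgroup.mem_bot, commutatorElement_eq_one_iff_mul_comm] at h1
    have h2 := congrArg (fun x : alternatingGroup (Fin 5) => x.1 1) h1
    revert h2
    decide
  · exact h

/-- **The Whitman number of the dual of the partition lattice.** For every `n` the dual of the
lattice of partitions of a set with `n + 1` elements has a lattice embedding into the lattice of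
partitions of a set with `60 ^ n` elements; so its Whitman number is at most `60 ^ n`. For the dual
of `Π_4` this gives `w(L_4^*) ≤ 60 ^ 3 = 216000`, which is less than `2 ^ 1000`. -/
theorem result :
    (∀ n : ℕ, (∃ f : LatticeHom (Setoid (Fin (n + 1)))ᵒᵈ (Setoid (Fin (60 ^ n))),
        Function.Injective f) ∧ whitmanNumber (Setoid (Fin (n + 1)))ᵒᵈ ≤ 60 ^ n) ∧
    whitmanNumber (Setoid (Fin 4))ᵒᵈ ≤ 216000 ∧ whitmanNumber (Setoid (Fin 4))ᵒᵈ ≤ 2 ^ 1000 := by
  have h1 : ∀ n : ℕ, ∃ f : LatticeHom (Setoid (Fin (n + 1)))ᵒᵈ (Setoid (Fin (60 ^ n))),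
      Function.Injective f := by
    intro n
    have hcard : Fintype.card (alternatingGroup (Fin 5)) = 60 := by
      rw [card_alternatingGroup, Fintype.card_fin]
      decide
    have h2 : Fintype.card (Fin n → alternatingGroup (Fin 5)) = 60 ^ n := by
      rw [Fintype.card_fun, hcard, Fintype.card_fin]
    exact ⟨emb perfect_A5 (Fintype.equivFinOfCardEq h2).symm, emb_injective _ _⟩
  have h2 : ∀ n : ℕ, whitmanNumber (Setoid (Fin (n + 1)))ᵒᵈ ≤ 60 ^ n := fun n =>
    Nat.sInf_le (h1 n)
  refine ⟨fun n => ⟨h1 n, h2 n⟩, ?_, ?_⟩
  · exact (h2 3).trans (by norm_num)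
  · refine (h2 3).trans ?_
    calc 60 ^ 3 ≤ 2 ^ 18 := by norm_num
      _ ≤ 2 ^ 1000 := Nat.pow_le_pow_right (by norm_num) (by norm_num)

end Pool.Agent.Results.MP_437e5a_co.DualPartitionLattice
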